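import Pool.Agent.W_7d29a1_Q29.Defs29

/-!
Strong disorder implies very strong disorder, in every dimension: definitions and frozen
statements of the leaves.
-/

namespace Pool.Agent.W_7d29a1_JL

open MeasureTheory ProbabilityTheory Filter Topology Pool.Agent.W_MP_7d29a1_pr
  Pool.Agent.W_7d29a1_h46 Pool.Agent.W_7d29a1_h46u Pool.Agent.W_7d29a1_D2.B35
  Pool.Agent.W_7d29a1_Q29

section Defs

variable {d : ℕ} (ρ : Measure ℝ) (β : ℝ) (h : Vec d)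

/-- The normalisation of one step. -/
noncomputable def Nz : ℝ := Phi h * ∫ t, Real.exp (β * t) ∂ρ

/-- The normalised point to point partition function. -/
noncomputable def Wp (n : ℕ) (x : Site d) (η : Env d) : ℝ := PP β h η n x / Nz ρ β h ^ n

/-- The normalised partition function. -/
noncomputable def Wn (n : ℕ) (η : Env d) : ℝ := Z β h η n / Nz ρ β h ^ n

/-- The law of a step. -/
noncomputable def pe (e : Step d) : ℝ := Real.exp (inner ℝ h (emb (vec e))) / Phi h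

/-- The kernel of the difference of two walks. -/
noncomputable def KK (g : Site d → ℝ) (z : Site d) : ℝ :=
  ∑ e : Step d, ∑ e' : Step d, pe h e * pe h e' * g (z + vec e - vec e')

/-- The second moment of the weight of a site. -/
noncomputable def w2 : ℝ := (∫ t, Real.exp (2 * β * t) ∂ρ) / (∫ t, Real.exp (β * t) ∂ρ) ^ 2

/-- Strong disorder, in the mean. -/
def SDm : Prop := Tendsto (fun n : ℕ => ∫ η, Real.sqrt (Wn ρ β h n η) ∂(law d ρ)) atTop (𝓝 0)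

open Classical in
/-- The growth of the second moment. -/
def SupR : Prop := ∃ (R : Site d → ℝ) (C κ : ℝ), 0 < κ ∧ R 0 = 1 ∧ (∀ z, 0 ≤ R z ∧ R z ≤ C) ∧
  ∀ z, Real.exp κ * R z ≤ KK h (fun z' => (if z' = 0 then w2 ρ β else 1) * R z') z

open Classical in
/-- Under the size biased law a large and localised partition function is hit. -/
def Hit : Prop := ∃ η₀ : ℝ, 0 < η₀ ∧ ∀ u : ℝ, 0 < u → ∃ N : ℕ,
  1 / 2 ≤ ∫ η, (if ∃ n ≤ N, u ≤ Wn ρ β h n η ∧ ∃ x ∈ boxF d n, η₀ * Wn ρ β h n η ≤ Wp ρ β h n x η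
    then Wn ρ β h N η else 0) ∂(law d ρ)

/-- One lucky level. -/
def Luck1 (δ : ℝ) : Prop := ∃ (K : ℝ) (N : ℕ), 1 < K ∧
  K ^ (-(1 + δ)) ≤ (law d ρ).real {η | ∃ n ≤ N, ∃ x ∈ boxF d n, K ≤ Wp ρ β h n x η}

/-- Every lucky level, in logarithmic time. -/
def Luck (δ : ℝ) : Prop := ∃ c C : ℝ, 0 < c ∧ 0 < C ∧ ∀ v : ℝ, 1 ≤ v →
  c * v ^ (-(1 + δ)) ≤ (law d ρ).real {η | ∃ n : ℕ, (n : ℝ) ≤ C * (1 + Real.log v) ∧
    v ≤ Wn ρ β h n η}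

/-- Many attempts. -/
def Att (δ : ℝ) : Prop := ∃ (c : ℝ) (N₁ : ℕ), 0 < c ∧ ∀ N : ℕ, N₁ ≤ N →
  ∃ (T : Finset ℕ) (B : ℝ), (∀ k ∈ T, N ≤ k ∧ k ≤ 2 * N) ∧ 0 < B ∧ Real.sqrt N ≤ B * T.card ∧
    ∀ u : ℝ, 0 < u →
      c * (law d ρ).real {η | u ^ (1 + δ) ≤ B * ∑ k ∈ T, Wn ρ β h k η ^ (1 + δ)} ≤
        (law d ρ).real {η | ∃ m, N ≤ m ∧ m ≤ 2 * N ∧ u ≤ Wn ρ β h m η}

/-- Fast decay. -/
def Dec : Prop := ∃ N₂ : ℕ, 1 ≤ N₂ ∧ ∀ N : ℕ, N₂ ≤ N →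
  ∫ η, Real.sqrt (Wn ρ β h (2 * N) η) ∂(law d ρ) ≤
    (N : ℝ) ^ (-(1 / 8 : ℝ)) * ∫ η, Real.sqrt (Wn ρ β h N η) ∂(law d ρ)

/-- The fractional moment is small. -/
def Frac : Prop := ∃ n : ℕ, 1 ≤ n ∧
  ∑ x ∈ boxF d n, ∫ η, Real.sqrt (Wp ρ β h n x η) ∂(law d ρ) < 1

end Defs

/-! ### The leaves -/

/-- A1: the fractional moment decreases in the inverse temperature. -/
def MonA (d : ℕ) (ρ : Measure ℝ) : Prop := ∀ (β' β : ℝ) (h : Vec d) (n : ℕ), 0 < β' → β' < β →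
  ∫ η, Real.sqrt (Wn ρ β h n η) ∂(law d ρ) ≤ ∫ η, Real.sqrt (Wn ρ β' h n η) ∂(law d ρ)

/-- A2, the potential theory: either the second moment grows exponentially or all second moments
with a smaller weight `w'` are bounded. -/
def PotA (d : ℕ) (ρ : Measure ℝ) : Prop := ∀ (β : ℝ) (h : Vec d), ¬ SupR ρ β h →
  ∀ w' : ℝ, 0 ≤ w' → w' < w2 ρ β → ∀ A : ℕ → Site d → ℝ, (∀ z, A 0 z = 1) →
    (∀ n z, A (n + 1) z = open Classical in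
      KK h (fun z' => (if z' = 0 then w' else 1) * A n z') z) → ∃ C : ℝ, ∀ n, A n 0 ≤ C

/-- A2, the second moment. -/
def SecA (d : ℕ) (ρ : Measure ℝ) : Prop := ∀ (β : ℝ) (h : Vec d) (A : ℕ → Site d → ℝ),
  (∀ z, A 0 z = 1) → (∀ n z, A (n + 1) z = open Classical in
      KK h (fun z' => (if z' = 0 then w2 ρ β else 1) * A n z') z) →
    ∀ n, Integrable (fun η => Wn ρ β h n η ^ 2) (law d ρ) ∧
      ∫ η, Wn ρ β h n η ^ 2 ∂(law d ρ) = A n 0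

/-- A2, the weight is increasing. -/
def WtA (ρ : Measure ℝ) : Prop := ∀ β' β : ℝ, 0 < β' → β' < β → w2 ρ β' < w2 ρ β

/-- B0: one row, abstract. -/
def RowB : Prop := ∀ (w w₃ κ : ℝ), 0 < κ → ∃ η₀ : ℝ, 0 < η₀ ∧ ∀ (Ω ι : Type) [MeasurableSpace Ω]
  (P : Measure Ω) [IsProbabilityMeasure P] (S : Finset ι) (α : ι → ℝ) (X : ι → Ω → ℝ),
  (∀ i, 0 ≤ α i) → ∑ i ∈ S, α i = 1 → (∀ i ∈ S, α i ≤ η₀) → (∀ i ω, 0 < X i ω) →
  (∀ i, Measurable (X i)) → iIndepFun X P → (∀ i, Integrable (fun ω => X i ω ^ 3) P) →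
  (∀ i, ∫ ω, X i ω ∂P = 1) → (∀ i, ∫ ω, X i ω ^ 2 ∂P = w) → (∀ i, ∫ ω, X i ω ^ 3 ∂P ≤ w₃) →
    (∀ c : ι → ι → ℝ, (∀ i j, 0 ≤ c i j) → open Classical in
      Real.exp (-κ) * ∑ i ∈ S, ∑ j ∈ S, c i j * (α i * α j * (if i = j then w else 1)) ≤
        ∫ ω, (∑ i ∈ S, ∑ j ∈ S, c i j * (α i * X i ω * (α j * X j ω))) /
          (∑ i ∈ S, α i * X i ω) ∂P) ∧
    ∀ r : ℝ, 0 ≤ r →
      ∫ ω, (∑ i ∈ S, α i * X i ω) *
        (Real.log (1 + r * ∑ i ∈ S, α i * X i ω) - Real.log (1 + r)) ∂P ≤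
          (w - 1) * ∑ i ∈ S, α i ^ 2

/-- B: the hitting. -/
def HitB (d : ℕ) (ρ : Measure ℝ) : Prop := ∀ (β : ℝ) (h : Vec d), SDm ρ β h → SupR ρ β h →
  Hit ρ β h

/-- C: one lucky level. -/
def LukC (d : ℕ) (ρ : Measure ℝ) : Prop := ∀ (β : ℝ) (h : Vec d), Hit ρ β h →
  ∀ δ : ℝ, 0 < δ → Luck1 ρ β h δ

/-- D: all lucky levels. -/
def LukD (d : ℕ) (ρ : Measure ℝ) : Prop := ∀ (β : ℝ) (h : Vec d) (δ : ℝ), 0 < δ →
  Luck1 ρ β h δ → Luck ρ β h δ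

/-- E1: independent attempts at distant sites. -/
def IndE (d : ℕ) (ρ : Measure ℝ) : Prop := ∀ (β : ℝ) (h : Vec d) (k l : ℕ) (S : Finset (Site d))
  (v : Site d → ℝ), (∀ y ∈ S, ∀ y' ∈ S, y ≠ y' → ∃ j, 2 * (l : ℤ) < |y j - y' j|) →
    1 / 2 * min 1 (∑ y ∈ S, (law d ρ).real {ξ | ∃ m ≤ l, v y ≤ Wn ρ β h m ξ}) ≤
      (law d ρ).real {ξ | ∃ y ∈ S, ∃ m ≤ l, v y ≤ Wn ρ β h m (sh k y ξ)}

/-- E: many attempts. -/
def AttE (d : ℕ) (ρ : Measure ℝ) : Prop := ∀ (β : ℝ) (h : Vec d) (δ : ℝ), 0 < δ →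
  δ ≤ 1 / (4 * d) → Luck ρ β h δ → Att ρ β h δ

/-- F: the decay. -/
def DecF (d : ℕ) (ρ : Measure ℝ) : Prop := ∀ (β : ℝ) (h : Vec d) (δ : ℝ), 0 < δ → δ ≤ 1 / 4 →
  Att ρ β h δ → Dec ρ β h

/-- G1: the fractional moment. -/
def FraG (d : ℕ) (ρ : Measure ℝ) : Prop := ∀ (β : ℝ) (h : Vec d), Dec ρ β h → Frac ρ β h

/-- G2: very strong disorder. -/
def VsdG (d : ℕ) (ρ : Measure ℝ) : Prop := ∀ (β : ℝ) (h : Vec d), Frac ρ β h → VSD ρ β h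

/-- The end: strong disorder at a smaller inverse temperature implies very strong disorder. -/
def EndZ (d : ℕ) (ρ : Measure ℝ) : Prop := ∀ (β' β : ℝ) (h : Vec d), 0 < β' → β' < β →
  (∀ᵐ η ∂(law d ρ), Tendsto (fun n : ℕ => Wn ρ β' h n η) atTop (𝓝 0)) → VSD ρ β h

end Pool.Agent.W_7d29a1_JL
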