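import Pool.Agent.W_7d29a1_JL.DefsJL98
import Pool.Agent.W_7d29a1_Q29.Csy42

/-!
Strong disorder: the fractional moment decreases in the inverse temperature (convex order, one
site at a time).
-/

namespace Pool.Agent.W_7d29a1_JL.A42

open MeasureTheory ProbabilityTheory Filter Topology Pool.Agent.W_MP_7d29a1_pr
  Pool.Agent.W_7d29a1_h46 Pool.Agent.W_7d29a1_h46u Pool.Agent.W_7d29a1_D2
  Pool.Agent.W_7d29a1_D2.B35 Pool.Agent.W_7d29a1_V.Law2 Pool.Agent.W_7d29a1_Q29
  Pool.Agent.W_7d29a1_Q29.Csy42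

variable {d : ℕ} {ρ : Measure ℝ} [IsProbabilityMeasure ρ]

/-! ### One site -/

lemma sqrt_le_lin {x : ℝ} (hx : 0 ≤ x) : Real.sqrt x ≤ 1 + x := by
  rw [Real.sqrt_le_left (by linarith)]
  nlinarith

omit [IsProbabilityMeasure ρ] in
lemma yy_meas (β : ℝ) : Measurable (yy ρ β) := by
  unfold yy
  exact Real.measurable_exp.comp ((measurable_id.const_mul β).sub_const _)

lemma sqrt_int (hρ : EM ρ) (β : ℝ) {a c : ℝ} (ha : 0 ≤ a) (hc : 0 ≤ c) :
    Integrable (fun t => Real.sqrt (a + c * yy ρ β t)) ρ := by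
  refine ((integrable_const (1 + a)).add ((yy_int hρ β).1.const_mul c)).mono'
    (Real.continuous_sqrt.measurable.comp
      (((yy_meas β).const_mul c).const_add a)).aestronglyMeasurable
    (Filter.Eventually.of_forall fun t => ?_)
  have h1 : 0 ≤ a + c * yy ρ β t := by
    have := (yy_pos (ρ := ρ) β t).le
    positivity
  rw [Real.norm_eq_abs, abs_of_nonneg (Real.sqrt_nonneg _)]
  change _ ≤ 1 + a + c * yy ρ β t
  linarith [sqrt_le_lin h1]

omit [IsProbabilityMeasure ρ] in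
lemma sqrt_pt {β' β : ℝ} (hlt : β' < β) (hβ' : 0 < β') {a c : ℝ} (ha : 0 ≤ a) (hc : 0 < c) :
    ∃ k : ℝ, ∀ t : ℝ, Real.sqrt (a + c * yy ρ β t) ≤
      Real.sqrt (a + c * yy ρ β' t) + k * (yy ρ β t - yy ρ β' t) := by
  obtain ⟨t₀, ht₀⟩ : ∃ t₀ : ℝ, t₀ = (cb ρ β - cb ρ β') / (β - β') := ⟨_, rfl⟩
  have hd : 0 < β - β' := by linarith
  have hrel : ∀ t, yy ρ β t = yy ρ β' t * Real.exp ((β - β') * (t - t₀)) := by
    intro t
    unfold yy
    rw [← Real.exp_add]
    congr 1
    rw [ht₀]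
    field_simp
    ring
  obtain ⟨s₀, hs₀⟩ : ∃ s₀ : ℝ, s₀ = a + c * yy ρ β' t₀ := ⟨_, rfl⟩
  have hs0 : 0 < s₀ := by
    rw [hs₀]
    have := mul_pos hc (yy_pos (ρ := ρ) β' t₀)
    linarith
  have hq0 := Real.sqrt_pos.2 hs0
  refine ⟨c / (2 * Real.sqrt s₀), fun t => ?_⟩
  obtain ⟨u, hu⟩ : ∃ u : ℝ, u = a + c * yy ρ β' t := ⟨_, rfl⟩
  obtain ⟨v, hv⟩ : ∃ v : ℝ, v = a + c * yy ρ β t := ⟨_, rfl⟩
  have hu0 : 0 < u := by
    rw [hu]
    have := mul_pos hc (yy_pos (ρ := ρ) β' t)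
    linarith
  have hv0 : 0 < v := by
    rw [hv]
    have := mul_pos hc (yy_pos (ρ := ρ) β t)
    linarith
  have hvu : v - u = c * (yy ρ β t - yy ρ β' t) := by
    rw [hu, hv]
    ring
  rw [← hu, ← hv]
  have hqu := Real.sqrt_pos.2 hu0
  have hqv := Real.sqrt_pos.2 hv0
  have e1 := Real.sq_sqrt hu0.le
  have e2 := Real.sq_sqrt hv0.le
  have h3 : c / (2 * Real.sqrt s₀) * (yy ρ β t - yy ρ β' t) = (v - u) / (2 * Real.sqrt s₀) := by
    rw [hvu]
    ring
  rw [h3]
  have h4 : Real.sqrt v - Real.sqrt u ≤ (v - u) / (2 * Real.sqrt s₀) := by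
    rw [le_div_iff₀ (by positivity)]
    have h5 : v - u = (Real.sqrt v - Real.sqrt u) * (Real.sqrt v + Real.sqrt u) := by
      nlinarith
    rw [h5]
    rcases le_total t₀ t with ht | ht
    · have h6 : yy ρ β' t ≤ yy ρ β t := by
        rw [hrel t]
        have : 1 ≤ Real.exp ((β - β') * (t - t₀)) :=
          Real.one_le_exp (mul_nonneg hd.le (by linarith))
        nlinarith [yy_pos (ρ := ρ) β' t]
      have h7 : u ≤ v := by nlinarith
      have h8 : s₀ ≤ u := by
        rw [hs₀, hu]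
        have : yy ρ β' t₀ ≤ yy ρ β' t := by
          unfold yy
          refine Real.exp_le_exp.2 ?_
          nlinarith
        nlinarith
      have h9 := Real.sqrt_le_sqrt h7
      have h10 := Real.sqrt_le_sqrt h8
      exact mul_le_mul_of_nonneg_left (by linarith) (by linarith)
    · have h6 : yy ρ β t ≤ yy ρ β' t := by
        rw [hrel t]
        have : Real.exp ((β - β') * (t - t₀)) ≤ 1 :=
          Real.exp_le_one_iff.2 (mul_nonpos_of_nonneg_of_nonpos hd.le (by linarith))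
        nlinarith [yy_pos (ρ := ρ) β' t]
      have h7 : v ≤ u := by nlinarith
      have h8 : u ≤ s₀ := by
        rw [hs₀, hu]
        have : yy ρ β' t ≤ yy ρ β' t₀ := by
          unfold yy
          refine Real.exp_le_exp.2 ?_
          nlinarith
        nlinarith
      have h9 := Real.sqrt_le_sqrt h7
      have h10 := Real.sqrt_le_sqrt h8
      exact mul_le_mul_of_nonpos_left (by linarith) (by linarith)
  linarith

/-- The convex order for one site. -/
lemma cvx (hρ : EM ρ) {β' β : ℝ} (hβ' : 0 < β') (hlt : β' < β) {a c : ℝ} (ha : 0 ≤ a)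
    (hc : 0 ≤ c) : ∫ t, Real.sqrt (a + c * yy ρ β t) ∂ρ ≤ ∫ t, Real.sqrt (a + c * yy ρ β' t) ∂ρ := by
  rcases hc.eq_or_lt with rfl | hc
  · simp
  obtain ⟨k, hk⟩ := sqrt_pt (ρ := ρ) hlt hβ' ha hc
  have h1 := sqrt_int hρ β ha hc.le
  have h2 := sqrt_int hρ β' ha hc.le
  have h3 : Integrable (fun t => k * (yy ρ β t - yy ρ β' t)) ρ :=
    ((yy_int hρ β).1.sub (yy_int hρ β').1).const_mul k
  have h4 := integral_mono h1 (h2.add h3) hk
  have h5 : ∫ t, (Real.sqrt (a + c * yy ρ β' t) + k * (yy ρ β t - yy ρ β' t)) ∂ρ =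
      ∫ t, Real.sqrt (a + c * yy ρ β' t) ∂ρ := by
    rw [integral_add h2 h3, integral_const_mul, integral_sub (yy_int hρ β).1 (yy_int hρ β').1,
      (yy_int hρ β).2, (yy_int hρ β').2]
    ring
  exact h4.trans (le_of_eq h5)

/-! ### The polymer with an inverse temperature at each site -/

/-- The site of the row `i + 1` on the walk. -/
def st {n : ℕ} (s : Fin n → Step d) (i : Fin n) : ℕ × Site d := ((i : ℕ) + 1, pos s ((i : ℕ) + 1))

/-- The weight of the walk without the environment. -/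
noncomputable def pr (h : Vec d) {n : ℕ} (s : Fin n → Step d) : ℝ :=
  Real.exp (inner ℝ h (emb (pos s n))) / Phi h ^ n

/-- The normalised partition function with the inverse temperature `b p` at the site `p`. -/
noncomputable def Wb (ρ : Measure ℝ) (h : Vec d) (b : ℕ × Site d → ℝ) (n : ℕ) (η : Env d) : ℝ :=
  ∑ s : Fin n → Step d, pr h s * ∏ i : Fin n, yy ρ (b (st s i)) (η (st s i))

omit [IsProbabilityMeasure ρ] in
lemma pr_nonneg (h : Vec d) {n : ℕ} (s : Fin n → Step d) : 0 ≤ pr h s := by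
  unfold pr Phi
  have : 0 ≤ ∑ e : Step d, Real.exp (inner ℝ h (emb (vec e))) :=
    Finset.sum_nonneg fun _ _ => (Real.exp_pos _).le
  positivity

lemma Wn_eq (hρ : EM ρ) (β : ℝ) (h : Vec d) (n : ℕ) (η : Env d) :
    Wn ρ β h n η = Wb ρ h (fun _ => β) n η := by
  unfold Wn Wb
  rw [Z_eq, Finset.sum_div]
  refine Finset.sum_congr rfl fun s _ => ?_
  have h1 : ∏ i : Fin n, yy ρ β (η (st s i)) =
      Real.exp (β * energy η s) / Real.exp (cb ρ β) ^ n := by
    unfold yy energy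
    simp only [sub_eq_add_neg, Real.exp_add, Finset.prod_mul_distrib, Finset.prod_const,
      Finset.card_univ, Fintype.card_fin]
    rw [← Real.exp_sum, ← Finset.mul_sum, Real.exp_neg, inv_pow, div_eq_mul_inv]
    rfl
  rw [h1]
  unfold pr wgt Nz
  rw [Real.exp_add, mul_pow, cb_exp hρ]
  ring

open Classical in
/-- The part of the walks which miss the site `p`. -/
noncomputable def Aw (ρ : Measure ℝ) (h : Vec d) (b : ℕ × Site d → ℝ) (n : ℕ) (p : ℕ × Site d)
    (η : Env d) : ℝ :=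
  ∑ s : Fin n → Step d, if ∃ i : Fin n, st s i = p then 0 else
    pr h s * ∏ i : Fin n, yy ρ (b (st s i)) (η (st s i))

open Classical in
/-- The part of the walks through the site `p`, without its weight. -/
noncomputable def Cw (ρ : Measure ℝ) (h : Vec d) (b : ℕ × Site d → ℝ) (n : ℕ) (p : ℕ × Site d)
    (η : Env d) : ℝ :=
  ∑ s : Fin n → Step d, if ∃ i : Fin n, st s i = p then
    pr h s * ∏ i : Fin n, (if st s i = p then 1 else yy ρ (b (st s i)) (η (st s i))) else 0

omit [IsProbabilityMeasure ρ] in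
lemma st_inj {n : ℕ} (s : Fin n → Step d) {i j : Fin n} (hij : st s i = st s j) : i = j := by
  have h1 : (i : ℕ) + 1 = (j : ℕ) + 1 := (Prod.mk.inj hij).1
  exact Fin.ext (by omega)

omit [IsProbabilityMeasure ρ] in
lemma Wb_aff (h : Vec d) (b : ℕ × Site d → ℝ) (n : ℕ) (p : ℕ × Site d) (η : Env d) :
    Wb ρ h b n η = Aw ρ h b n p η + Cw ρ h b n p η * yy ρ (b p) (η p) := by
  classical
  unfold Wb Aw Cw
  rw [Finset.sum_mul, ← Finset.sum_add_distrib]
  refine Finset.sum_congr rfl fun s _ => ?_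
  by_cases hs : ∃ i : Fin n, st s i = p
  · rw [if_pos hs, if_pos hs, zero_add, mul_assoc]
    congr 1
    obtain ⟨i₀, hi₀⟩ := hs
    rw [← Finset.mul_prod_erase Finset.univ _ (Finset.mem_univ i₀),
      ← Finset.mul_prod_erase Finset.univ (fun i : Fin n => if st s i = p then (1 : ℝ) else
        yy ρ (b (st s i)) (η (st s i))) (Finset.mem_univ i₀), if_pos hi₀, one_mul, hi₀, mul_comm]
    congr 1
    refine Finset.prod_congr rfl fun i hi => ?_
    rw [if_neg]
    intro hc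
    exact (Finset.mem_erase.1 hi).1 (st_inj s (hc.trans hi₀.symm))
  · rw [if_neg hs, if_neg hs, zero_mul, add_zero]

omit [IsProbabilityMeasure ρ] in
lemma Aw_congr (h : Vec d) {b b' : ℕ × Site d → ℝ} (n : ℕ) (p : ℕ × Site d) {η η' : Env d}
    (hb : ∀ q, q ≠ p → b q = b' q) (hη : ∀ q, q ≠ p → η q = η' q) :
    Aw ρ h b n p η = Aw ρ h b' n p η' := by
  classical
  unfold Aw
  refine Finset.sum_congr rfl fun s _ => ?_
  by_cases hs : ∃ i : Fin n, st s i = p
  · rw [if_pos hs, if_pos hs]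
  · rw [if_neg hs, if_neg hs]
    congr 1
    refine Finset.prod_congr rfl fun i _ => ?_
    have h1 : st s i ≠ p := fun hc => hs ⟨i, hc⟩
    rw [hb _ h1, hη _ h1]

omit [IsProbabilityMeasure ρ] in
lemma Cw_congr (h : Vec d) {b b' : ℕ × Site d → ℝ} (n : ℕ) (p : ℕ × Site d) {η η' : Env d}
    (hb : ∀ q, q ≠ p → b q = b' q) (hη : ∀ q, q ≠ p → η q = η' q) :
    Cw ρ h b n p η = Cw ρ h b' n p η' := by
  classical
  unfold Cw
  refine Finset.sum_congr rfl fun s _ => ?_
  by_cases hs : ∃ i : Fin n, st s i = p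
  · rw [if_pos hs, if_pos hs]
    congr 1
    refine Finset.prod_congr rfl fun i _ => ?_
    by_cases h1 : st s i = p
    · rw [if_pos h1, if_pos h1]
    · rw [if_neg h1, if_neg h1, hb _ h1, hη _ h1]
  · rw [if_neg hs, if_neg hs]

omit [IsProbabilityMeasure ρ] in
lemma Aw_nonneg (h : Vec d) (b : ℕ × Site d → ℝ) (n : ℕ) (p : ℕ × Site d) (η : Env d) :
    0 ≤ Aw ρ h b n p η := by
  classical
  refine Finset.sum_nonneg fun s _ => ?_
  split_ifs
  · exact le_rfl
  · exact mul_nonneg (pr_nonneg h s) (Finset.prod_nonneg fun _ _ => (yy_pos _ _).le)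

omit [IsProbabilityMeasure ρ] in
lemma Cw_nonneg (h : Vec d) (b : ℕ × Site d → ℝ) (n : ℕ) (p : ℕ × Site d) (η : Env d) :
    0 ≤ Cw ρ h b n p η := by
  classical
  refine Finset.sum_nonneg fun s _ => ?_
  split_ifs
  · refine mul_nonneg (pr_nonneg h s) (Finset.prod_nonneg fun _ _ => ?_)
    split_ifs
    · exact zero_le_one
    · exact (yy_pos _ _).le
  · exact le_rfl

omit [IsProbabilityMeasure ρ] in
lemma Wb_nonneg (h : Vec d) (b : ℕ × Site d → ℝ) (n : ℕ) (η : Env d) : 0 ≤ Wb ρ h b n η :=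
  Finset.sum_nonneg fun s _ => mul_nonneg (pr_nonneg h s)
    (Finset.prod_nonneg fun _ _ => (yy_pos _ _).le)

omit [IsProbabilityMeasure ρ] in
lemma Wb_meas (h : Vec d) (b : ℕ × Site d → ℝ) (n : ℕ) :
    Measurable fun η : Env d => Wb ρ h b n η := by
  unfold Wb
  exact Finset.measurable_sum _ fun s _ => (Finset.measurable_prod _ fun i _ =>
    (yy_meas _).comp (measurable_pi_apply _)).const_mul _

lemma Wb_int (hρ : EM ρ) (h : Vec d) (b : ℕ × Site d → ℝ) (n : ℕ) :
    Integrable (fun η : Env d => Wb ρ h b n η) (law d ρ) := by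
  unfold Wb
  refine integrable_finsetSum _ fun s _ => Integrable.const_mul ?_ _
  rcases Nat.eq_zero_or_pos n with rfl | hn
  · simp only [Finset.univ_eq_empty, Finset.prod_empty]
    exact integrable_const _
  have hn' : (0 : ℝ) < n := by exact_mod_cast hn
  -- arithmetic and geometric means
  have h1 : ∀ η : Env d, ∏ i : Fin n, yy ρ (b (st s i)) (η (st s i)) ≤
      ∑ i : Fin n, Real.exp (-(n * cb ρ (b (st s i)))) *
        Real.exp ((n * b (st s i)) * η (st s i)) := by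
    intro η
    have h2 : ∏ i : Fin n, yy ρ (b (st s i)) (η (st s i)) =
        Real.exp (∑ i : Fin n, (n : ℝ)⁻¹ * (n * (b (st s i) * η (st s i) - cb ρ (b (st s i))))) := by
      rw [Real.exp_sum]
      refine Finset.prod_congr rfl fun i _ => ?_
      unfold yy
      congr 1
      field_simp
    rw [h2]
    have h3 := convexOn_exp.map_sum_le (t := (Finset.univ : Finset (Fin n)))
      (w := fun _ => (n : ℝ)⁻¹)
      (p := fun i => n * (b (st s i) * η (st s i) - cb ρ (b (st s i))))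
      (fun _ _ => (inv_pos.2 hn').le)
      (by rw [Finset.sum_const, Finset.card_univ, Fintype.card_fin, nsmul_eq_mul,
        mul_inv_cancel₀ hn'.ne']) (fun _ _ => Set.mem_univ _)
    simp only [smul_eq_mul] at h3
    refine h3.trans (Finset.sum_le_sum fun i _ => ?_)
    rw [← Real.exp_add]
    have h4 : (n : ℝ)⁻¹ ≤ 1 := inv_le_one_of_one_le₀ (by exact_mod_cast hn)
    have h5 : -(n * cb ρ (b (st s i))) + n * b (st s i) * η (st s i) =
        n * (b (st s i) * η (st s i) - cb ρ (b (st s i))) := by ring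
    rw [h5]
    have h6 := Real.exp_pos (n * (b (st s i) * η (st s i) - cb ρ (b (st s i))))
    nlinarith
  refine Integrable.mono' (integrable_finsetSum Finset.univ fun i _ =>
    ((ev_int (d := d) (hρ (n * b (st s i))) (st s i)).1.const_mul
      (Real.exp (-(n * cb ρ (b (st s i)))))))
    (Finset.measurable_prod _ fun i _ =>
      (yy_meas (ρ := ρ) _).comp (measurable_pi_apply _)).aestronglyMeasurable
    (Filter.Eventually.of_forall fun η => ?_)
  rw [Real.norm_eq_abs, abs_of_nonneg (Finset.prod_nonneg fun _ _ => (yy_pos _ _).le)]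
  exact h1 η

lemma sW_int (hρ : EM ρ) (h : Vec d) (b : ℕ × Site d → ℝ) (n : ℕ) :
    Integrable (fun η : Env d => Real.sqrt (Wb ρ h b n η)) (law d ρ) := by
  refine ((integrable_const 1).add (Wb_int hρ h b n)).mono'
    (Real.continuous_sqrt.measurable.comp (Wb_meas h b n)).aestronglyMeasurable
    (Filter.Eventually.of_forall fun η => ?_)
  rw [Real.norm_eq_abs, abs_of_nonneg (Real.sqrt_nonneg _)]
  exact sqrt_le_lin (Wb_nonneg h b n η)

/-- One site is changed. -/
lemma step_site (hρ : EM ρ) {β' β : ℝ} (hβ' : 0 < β') (hlt : β' < β) (h : Vec d)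
    {b b' : ℕ × Site d → ℝ} (n : ℕ) (p : ℕ × Site d) (hb : ∀ q, q ≠ p → b q = b' q)
    (h1 : b p = β) (h2 : b' p = β') :
    ∫ η, Real.sqrt (Wb ρ h b n η) ∂(law d ρ) ≤ ∫ η, Real.sqrt (Wb ρ h b' n η) ∂(law d ρ) := by
  have hmp := mp_sp (J := ℕ × Site d) (ρ := ρ) {q : ℕ × Site d | q ≠ p}
  have hI : ∀ c : ℕ × Site d → ℝ, ∫ η, Real.sqrt (Wb ρ h c n η) ∂(law d ρ) =
      ∫ η : Env d, ∫ ξ : Env d, Real.sqrt (Wb ρ h c n (sp {q : ℕ × Site d | q ≠ p} η ξ))
        ∂(law d ρ) ∂(law d ρ) := by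
    intro c
    have h3 := hmp.integrable_comp_of_integrable (sW_int hρ h c n)
    have h4 : ∫ η, Real.sqrt (Wb ρ h c n η) ∂(law d ρ) = ∫ w : Env d × Env d,
        Real.sqrt (Wb ρ h c n (sp {q : ℕ × Site d | q ≠ p} w.1 w.2))
          ∂((law d ρ).prod (law d ρ)) :=
      (LawU_integral hmp (F := fun η : Env d => Real.sqrt (Wb ρ h c n η))
        (Real.continuous_sqrt.measurable.comp (Wb_meas h c n)).aestronglyMeasurable).symm
    rw [h4]
    exact integral_prod _ h3
  have hin : ∀ (c : ℕ × Site d → ℝ) (η : Env d),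
      ∫ ξ : Env d, Real.sqrt (Wb ρ h c n (sp {q : ℕ × Site d | q ≠ p} η ξ)) ∂(law d ρ) =
      ∫ t, Real.sqrt (Aw ρ h c n p η + Cw ρ h c n p η * yy ρ (c p) t) ∂ρ := by
    intro c η
    have h3 : ∀ ξ : Env d, Wb ρ h c n (sp {q : ℕ × Site d | q ≠ p} η ξ) =
        Aw ρ h c n p η + Cw ρ h c n p η * yy ρ (c p) (ξ p) := by
      intro ξ
      have h4 : ∀ q : ℕ × Site d, q ≠ p → sp {q : ℕ × Site d | q ≠ p} η ξ q = η q :=
        fun q hq => sp_mem hq
      rw [Wb_aff h c n p, Aw_congr h n p (fun _ _ => rfl) h4, Cw_congr h n p (fun _ _ => rfl) h4,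
        sp_not (show p ∉ {q : ℕ × Site d | q ≠ p} from fun hc => hc rfl)]
    simp only [h3]
    exact (ev_int (sqrt_int hρ (c p) (Aw_nonneg h c n p η) (Cw_nonneg h c n p η)) p).2
  have hJ : ∀ c : ℕ × Site d → ℝ, Integrable (fun η : Env d => ∫ ξ : Env d,
      Real.sqrt (Wb ρ h c n (sp {q : ℕ × Site d | q ≠ p} η ξ)) ∂(law d ρ)) (law d ρ) :=
    fun c => (hmp.integrable_comp_of_integrable (sW_int hρ h c n)).integral_prod_left
  rw [hI b, hI b']
  refine integral_mono (hJ b) (hJ b') fun η => ?_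
  simp only
  rw [hin b η, hin b' η, h1, h2, Aw_congr h n p hb (fun _ _ => rfl),
    Cw_congr h n p hb (fun _ _ => rfl)]
  exact cvx hρ hβ' hlt (Aw_nonneg h b' n p η) (Cw_nonneg h b' n p η)

open Classical in
lemma all_sites (hρ : EM ρ) {β' β : ℝ} (hβ' : 0 < β') (hlt : β' < β) (h : Vec d) (n : ℕ)
    (J : Finset (ℕ × Site d)) :
    ∫ η, Real.sqrt (Wb ρ h (fun q => if q ∈ J then β else β') n η) ∂(law d ρ) ≤
      ∫ η, Real.sqrt (Wb ρ h (fun _ => β') n η) ∂(law d ρ) := by
  induction J using Finset.induction_on with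
  | empty => simp
  | insert p J hp ih =>
    refine le_trans (step_site hρ hβ' hlt h n p (fun q hq => ?_) ?_ ?_) ih
    · simp only [Finset.mem_insert, hq, false_or]
    · simp
    · simp [hp]

end Pool.Agent.W_7d29a1_JL.A42

namespace Pool.Agent.W_7d29a1_JL

open MeasureTheory ProbabilityTheory Filter Topology Pool.Agent.W_MP_7d29a1_pr
  Pool.Agent.W_7d29a1_h46 Pool.Agent.W_7d29a1_h46u Pool.Agent.W_7d29a1_Q29
  Pool.Agent.W_7d29a1_JL.A42

/-- A1. -/
theorem monA42 {d : ℕ} {ρ : Measure ℝ} [IsProbabilityMeasure ρ] (hρ : EM ρ) : MonA d ρ := by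
  classical
  intro β' β h n hβ' hlt
  obtain ⟨J, hJ⟩ : ∃ J : Finset (ℕ × Site d),
      J = (Finset.univ : Finset (Fin n → Step d)).biUnion fun s =>
        Finset.univ.image fun i => st s i := ⟨_, rfl⟩
  have h1 := all_sites (d := d) hρ hβ' hlt h n J
  have h2 : ∀ η : Env d, Wb ρ h (fun q => if q ∈ J then β else β') n η = Wn ρ β h n η := by
    intro η
    rw [Wn_eq hρ]
    unfold Wb
    refine Finset.sum_congr rfl fun s _ => ?_
    congr 1
    refine Finset.prod_congr rfl fun i _ => ?_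
    have h3 : st s i ∈ J := by
      rw [hJ, Finset.mem_biUnion]
      exact ⟨s, Finset.mem_univ s, Finset.mem_image.2 ⟨i, Finset.mem_univ i, rfl⟩⟩
    simp only [if_pos h3]
  simp only [h2] at h1
  simp only [← Wn_eq hρ] at h1
  exact h1

end Pool.Agent.W_7d29a1_JL
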