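import Pool.Agent.W_7d29a1_JL.DefsJL98

/-!
Strong disorder implies very strong disorder, leaf A2 (helper35): the potential theory.
-/

namespace Pool.Agent.W_7d29a1_JL

open MeasureTheory ProbabilityTheory Filter Topology Pool.Agent.W_MP_7d29a1_pr
  Pool.Agent.W_7d29a1_h46 Pool.Agent.W_7d29a1_h46u Pool.Agent.W_7d29a1_D2.B35
  Pool.Agent.W_7d29a1_Q29

namespace Pot35

variable {d : ℕ}

theorem Phi_pos (hd : 0 < d) (h : Vec d) : 0 < Phi h := by
  unfold Phi
  haveI : Nonempty (Step d) := ⟨(⟨0, hd⟩, true)⟩
  exact Finset.sum_pos (fun e _ => Real.exp_pos _) Finset.univ_nonempty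

theorem pe_nonneg (hd : 0 < d) (h : Vec d) (e : Step d) : 0 ≤ pe h e :=
  div_nonneg (Real.exp_pos _).le (Phi_pos hd h).le

theorem pe_sum (hd : 0 < d) (h : Vec d) : ∑ e : Step d, pe h e = 1 := by
  unfold pe
  rw [← Finset.sum_div]
  exact div_self (Phi_pos hd h).ne'

theorem KK_mono (hd : 0 < d) (h : Vec d) {f g : Site d → ℝ} (hfg : ∀ z, f z ≤ g z) (z : Site d) :
    KK h f z ≤ KK h g z := by
  unfold KK
  refine Finset.sum_le_sum fun e _ => Finset.sum_le_sum fun e' _ => ?_
  exact mul_le_mul_of_nonneg_left (hfg _) (mul_nonneg (pe_nonneg hd h e) (pe_nonneg hd h e'))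

theorem KK_lin (h : Vec d) (f g : Site d → ℝ) (a b : ℝ) (z : Site d) :
    KK h (fun z => a * f z + b * g z) z = a * KK h f z + b * KK h g z := by
  unfold KK
  rw [Finset.mul_sum, Finset.mul_sum, ← Finset.sum_add_distrib]
  refine Finset.sum_congr rfl fun e _ => ?_
  rw [Finset.mul_sum, Finset.mul_sum, ← Finset.sum_add_distrib]
  refine Finset.sum_congr rfl fun e' _ => ?_
  ring

theorem KK_smul (h : Vec d) (g : Site d → ℝ) (b : ℝ) (z : Site d) :
    KK h (fun z => b * g z) z = b * KK h g z := by
  have := KK_lin h (fun _ => 0) g 0 b z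
  simpa using this

theorem KK_one (hd : 0 < d) (h : Vec d) (z : Site d) : KK h (fun _ => 1) z = 1 := by
  unfold KK
  simp only [mul_one]
  have : ∀ e : Step d, ∑ e' : Step d, pe h e * pe h e' = pe h e := by
    intro e
    rw [← Finset.mul_sum, pe_sum hd, mul_one]
  rw [Finset.sum_congr rfl fun e _ => this e, pe_sum hd]

theorem KK_nonneg (hd : 0 < d) (h : Vec d) {g : Site d → ℝ} (hg : ∀ z, 0 ≤ g z) (z : Site d) :
    0 ≤ KK h g z := by
  have := KK_mono hd h (f := fun _ => 0) hg z
  have h0 : KK h (fun _ => (0 : ℝ)) z = 0 := by simp [KK]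
  rw [h0] at this
  exact this

/-- The probability of a hit of the origin, with the factor `s` for every step and the weight `w`
at the hit. -/
noncomputable def RR (h : Vec d) (s w : ℝ) : ℕ → Site d → ℝ
  | 0 => fun z => open Classical in if z = 0 then 1 else 0
  | j + 1 => fun z => open Classical in if z = 0 then 1 else
      s * KK h (fun z' => (if z' = 0 then w else 1) * RR h s w j z') z

theorem RR_zero (h : Vec d) (s w : ℝ) (j : ℕ) : RR h s w j 0 = 1 := by
  cases j <;> simp [RR]

theorem RR_succ (h : Vec d) (s w : ℝ) (j : ℕ) {z : Site d} (hz : z ≠ 0) : RR h s w (j + 1) z =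
    s * KK h (fun z' => open Classical in (if z' = 0 then w else 1) * RR h s w j z') z := by
  simp [RR, hz]

theorem RR_nonneg (hd : 0 < d) (h : Vec d) {s w : ℝ} (hs : 0 ≤ s) (hw : 0 ≤ w) (j : ℕ) :
    ∀ z, 0 ≤ RR h s w j z := by
  induction j with
  | zero =>
    intro z
    simp only [RR]
    split_ifs <;> norm_num
  | succ j ih =>
    intro z
    by_cases hz : z = 0
    · rw [hz, RR_zero]
      norm_num
    · rw [RR_succ h s w j hz]
      refine mul_nonneg hs (KK_nonneg hd h (fun z' => mul_nonneg ?_ (ih z')) z)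
      split_ifs
      · exact hw
      · norm_num

theorem RR_le (hd : 0 < d) (h : Vec d) {s w : ℝ} (hs : 0 ≤ s) (hs1 : s ≤ 1) (hw : 0 ≤ w) (j : ℕ) :
    ∀ z, RR h s w j z ≤ (max 1 w) ^ j := by
  have hm : 1 ≤ max 1 w := le_max_left _ _
  induction j with
  | zero =>
    intro z
    simp only [RR, pow_zero]
    split_ifs <;> norm_num
  | succ j ih =>
    intro z
    by_cases hz : z = 0
    · rw [hz, RR_zero]
      exact one_le_pow₀ hm
    · rw [RR_succ h s w j hz]
      have h1 : KK h (fun z' => open Classical in (if z' = 0 then w else 1) * RR h s w j z') z ≤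
          KK h (fun _ => (max 1 w) ^ (j + 1) * 1) z := by
        refine KK_mono hd h (fun z' => ?_) z
        rw [mul_one, pow_succ, mul_comm ((max 1 w) ^ j)]
        refine mul_le_mul ?_ (ih z') (RR_nonneg hd h hs hw j z') (by positivity)
        split_ifs
        · exact le_max_right _ _
        · exact hm
      rw [KK_smul, KK_one hd, mul_one] at h1
      have h2 : 0 ≤ KK h (fun z' => open Classical in
          (if z' = 0 then w else 1) * RR h s w j z') z := by
        refine KK_nonneg hd h (fun z' => mul_nonneg ?_ (RR_nonneg hd h hs hw j z')) z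
        split_ifs
        · exact hw
        · norm_num
      calc s * KK h _ z ≤ 1 * KK h _ z := mul_le_mul_of_nonneg_right hs1 h2
        _ ≤ _ := by rw [one_mul]; exact h1

theorem RR_mono (hd : 0 < d) (h : Vec d) {s w : ℝ} (hs : 0 ≤ s) (hw : 0 ≤ w) (j : ℕ) :
    ∀ z, RR h s w j z ≤ RR h s w (j + 1) z := by
  induction j with
  | zero =>
    intro z
    by_cases hz : z = 0
    · rw [hz, RR_zero, RR_zero]
    · have h0 : RR h s w 0 z = 0 := by simp [RR, hz]
      rw [h0]
      exact RR_nonneg hd h hs hw 1 z
  | succ j ih =>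
    intro z
    by_cases hz : z = 0
    · rw [hz, RR_zero, RR_zero]
    · rw [RR_succ h s w j hz, RR_succ h s w (j + 1) hz]
      refine mul_le_mul_of_nonneg_left (KK_mono hd h (fun z' => ?_) z) hs
      refine mul_le_mul_of_nonneg_left (ih z') ?_
      split_ifs
      · exact hw
      · norm_num

/-- The factor `s` costs at most `s ^ j`. -/
theorem RR_pow (hd : 0 < d) (h : Vec d) {s w : ℝ} (hs : 0 ≤ s) (hs1 : s ≤ 1) (hw : 0 ≤ w) (j : ℕ) :
    ∀ z, s ^ j * RR h 1 w j z ≤ RR h s w j z := by
  induction j with
  | zero =>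
    intro z
    simp [RR]
  | succ j ih =>
    intro z
    by_cases hz : z = 0
    · rw [hz, RR_zero, RR_zero, mul_one]
      exact pow_le_one₀ hs hs1
    · rw [RR_succ h s w j hz, RR_succ h 1 w j hz, one_mul, pow_succ]
      have h1 : s ^ j * KK h (fun z' => open Classical in
          (if z' = 0 then w else 1) * RR h 1 w j z') z ≤
          KK h (fun z' => open Classical in (if z' = 0 then w else 1) * RR h s w j z') z := by
        rw [← KK_smul]
        refine KK_mono hd h (fun z' => ?_) z
        have hW : 0 ≤ (open Classical in if z' = 0 then w else 1 : ℝ) := by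
          split_ifs
          · exact hw
          · norm_num
        calc s ^ j * ((open Classical in if z' = 0 then w else 1) * RR h 1 w j z')
            = (open Classical in if z' = 0 then w else 1) * (s ^ j * RR h 1 w j z') := by ring
          _ ≤ _ := mul_le_mul_of_nonneg_left (ih z') hW
      calc s ^ j * s * KK h (fun z' => open Classical in
            (if z' = 0 then w else 1) * RR h 1 w j z') z
          = s * (s ^ j * KK h (fun z' => open Classical in
            (if z' = 0 then w else 1) * RR h 1 w j z') z) := by ring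
        _ ≤ _ := mul_le_mul_of_nonneg_left h1 hs

end Pot35

open Pot35 in
/-- Leaf A2, the potential theory. -/
theorem potA35 {d : ℕ} {ρ : Measure ℝ} (hd : 0 < d) : PotA d ρ := by
  classical
  intro β h hno w' hw'0 hw' A hA0 hA
  obtain ⟨w, hw⟩ : ∃ w : ℝ, w = w2 ρ β := ⟨_, rfl⟩
  rw [← hw] at hw'
  have hw0 : 0 < w := lt_of_le_of_lt hw'0 hw'
  -- the hitting probabilities
  have key : ∀ j : ℕ, KK h (fun z' => (if z' = 0 then w else 1) * RR h 1 w j z') 0 ≤ 1 := by
    intro j
    by_contra hcon
    push Not at hcon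
    obtain ⟨k, hk⟩ : ∃ k : ℝ,
      k = KK h (fun z' => (if z' = 0 then w else 1) * RR h 1 w j z') 0 := ⟨_, rfl⟩
    rw [← hk] at hcon
    -- a factor close to one
    have hcont : Tendsto (fun s : ℝ => s ^ (j + 1) * k) (𝓝[<] 1) (𝓝 (1 ^ (j + 1) * k)) :=
      ((continuous_pow (j + 1)).mul continuous_const).continuousAt.tendsto.mono_left
        nhdsWithin_le_nhds
    rw [one_pow, one_mul] at hcont
    have hev : ∀ᶠ s : ℝ in 𝓝[<] 1, 1 < s ^ (j + 1) * k := hcont.eventually_const_lt hcon
    have hev2 : ∀ᶠ s : ℝ in 𝓝[<] (1 : ℝ), 0 < s :=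
      (eventually_gt_nhds one_pos).filter_mono nhdsWithin_le_nhds
    obtain ⟨s, hs1, hs0, hslt⟩ := (hev.and (hev2.and self_mem_nhdsWithin)).exists
    have hslt' : s < 1 := hslt
    have hpow : ∀ z', s ^ j * RR h 1 w j z' ≤ RR h s w j z' :=
      RR_pow hd h hs0.le hslt'.le hw0.le j
    have hbig : 1 < s * KK h (fun z' => (if z' = 0 then w else 1) * RR h s w j z') 0 := by
      have h1 : s ^ j * k ≤
          KK h (fun z' => (if z' = 0 then w else 1) * RR h s w j z') 0 := by
        rw [hk, ← KK_smul]
        refine KK_mono hd h (fun z' => ?_) 0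
        have hW : (0 : ℝ) ≤ if z' = 0 then w else 1 := by
          split_ifs
          · exact hw0.le
          · norm_num
        calc s ^ j * ((if z' = 0 then w else 1) * RR h 1 w j z')
            = (if z' = 0 then w else 1) * (s ^ j * RR h 1 w j z') := by ring
          _ ≤ _ := mul_le_mul_of_nonneg_left (hpow z') hW
      calc (1 : ℝ) < s ^ (j + 1) * k := hs1
        _ = s * (s ^ j * k) := by ring
        _ ≤ _ := mul_le_mul_of_nonneg_left h1 hs0.le
    refine hno ⟨RR h s w j, (max 1 w) ^ j, -Real.log s, ?_, RR_zero h s w j, fun z =>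
      ⟨RR_nonneg hd h hs0.le hw0.le j z, RR_le hd h hs0.le hslt'.le hw0.le j z⟩, fun z => ?_⟩
    · have := Real.log_neg hs0 hslt'
      linarith
    rw [Real.exp_neg, Real.exp_log hs0, ← hw]
    by_cases hz : z = 0
    · rw [hz, RR_zero, mul_one]
      have h2 : s⁻¹ * 1 < s⁻¹ * (s *
          KK h (fun z' => (if z' = 0 then w else 1) * RR h s w j z') 0) :=
        mul_lt_mul_of_pos_left hbig (inv_pos.2 hs0)
      rw [← mul_assoc, inv_mul_cancel₀ hs0.ne', one_mul, mul_one] at h2
      exact h2.le
    · have h3 : RR h s w j z ≤ RR h s w (j + 1) z := RR_mono hd h hs0.le hw0.le j z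
      rw [RR_succ h s w j hz] at h3
      have h4 := mul_le_mul_of_nonneg_left h3 (inv_pos.2 hs0).le
      rw [← mul_assoc s⁻¹ s, inv_mul_cancel₀ hs0.ne', one_mul] at h4
      exact h4
  -- the bound
  obtain ⟨t, ht⟩ : ∃ t : ℝ, t = w' / w := ⟨_, rfl⟩
  have ht0 : 0 ≤ t := by
    rw [ht]
    positivity
  have ht1 : t < 1 := by
    rw [ht, div_lt_one hw0]
    exact hw'
  obtain ⟨D, hD⟩ : ∃ D : ℝ, D = 1 / (1 - t) := ⟨_, rfl⟩
  have hD1 : 1 + t * D = D := by
    have : 1 - t ≠ 0 := by linarith
    rw [hD]
    field_simp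
    ring
  have hDpos : 0 < D := by
    rw [hD]
    exact one_div_pos.2 (by linarith)
  have hDge : 1 ≤ D := by
    rw [← hD1]
    have := mul_nonneg ht0 hDpos.le
    linarith
  obtain ⟨c, hc⟩ : ∃ c : ℝ, c = max 1 (w' * D) := ⟨_, rfl⟩
  have hc1 : 1 ≤ c := by
    rw [hc]
    exact le_max_left _ _
  -- the function `g_n`: `W R_n / w`
  have main : ∀ n : ℕ, (∀ z, (if z = 0 then w' else 1) * A n z ≤
      1 + (c - 1) / w * ((if z = 0 then w else 1) * RR h 1 w n z)) ∧ A n 0 ≤ D := by
    intro n
    induction n with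
    | zero =>
      refine ⟨fun z => ?_, ?_⟩
      · rw [hA0, mul_one]
        by_cases hz : z = 0
        · rw [if_pos hz, if_pos hz, hz, RR_zero, mul_one]
          rw [div_mul_cancel₀ _ hw0.ne']
          have : w' ≤ w' * D := by
            have := mul_le_mul_of_nonneg_left hDge hw'0
            linarith
          have h5 : w' * D ≤ c := by
            rw [hc]
            exact le_max_right _ _
          linarith
        · rw [if_neg hz, if_neg hz]
          have : 0 ≤ (c - 1) / w * (1 * RR h 1 w 0 z) := by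
            refine mul_nonneg (div_nonneg (by linarith) hw0.le) ?_
            rw [one_mul]
            exact RR_nonneg hd h zero_le_one hw0.le 0 z
          linarith
      · rw [hA0]
        exact hDge
    | succ n ih =>
      obtain ⟨ih1, ih2⟩ := ih
      have hstep : ∀ z, A (n + 1) z ≤ 1 + (c - 1) / w *
          KK h (fun z' => (if z' = 0 then w else 1) * RR h 1 w n z') z := by
        intro z
        rw [hA]
        refine le_trans (KK_mono hd h ih1 z) ?_
        have h6 := KK_lin h (fun _ => 1) (fun z' => (if z' = 0 then w else 1) * RR h 1 w n z')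
          1 ((c - 1) / w) z
        rw [KK_one hd, one_mul] at h6
        exact h6.le
      have hA1 : A (n + 1) 0 ≤ D := by
        have h8 := hstep 0
        have h9 : (c - 1) / w *
            KK h (fun z' => (if z' = 0 then w else 1) * RR h 1 w n z') 0 ≤ (c - 1) / w * 1 :=
          mul_le_mul_of_nonneg_left (key n) (div_nonneg (by linarith) hw0.le)
        have h10 : A (n + 1) 0 ≤ 1 + (c - 1) / w := by linarith
        refine le_trans h10 ?_
        rcases le_total (w' * D) 1 with h11 | h11
        · rw [hc, max_eq_left h11]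
          simp only [sub_self, zero_div, add_zero]
          exact hDge
        · rw [hc, max_eq_right h11]
          have h12 : (w' * D - 1) / w = t * D - 1 / w := by
            rw [ht]
            field_simp
          rw [h12]
          have : 0 < 1 / w := by positivity
          linarith
      refine ⟨fun z => ?_, hA1⟩
      by_cases hz : z = 0
      · rw [if_pos hz, if_pos hz, hz, RR_zero, mul_one, div_mul_cancel₀ _ hw0.ne']
        have h13 := mul_le_mul_of_nonneg_left hA1 hw'0
        have h14 : w' * D ≤ c := by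
          rw [hc]
          exact le_max_right _ _
        linarith
      · rw [if_neg hz, if_neg hz, one_mul, one_mul, RR_succ h 1 w n hz, one_mul]
        exact hstep z
  exact ⟨D, fun n => (main n).2⟩

end Pool.Agent.W_7d29a1_JL
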